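import Mathlib
import Pool.Agent.H5R2.NL.Cut

/-!
# Sobolev and Hardy inequalities for real functions on `ℝ³` and for limits of test functions
-/

set_option autoImplicit false

open MeasureTheory Filter Topology Set
open scoped ENNReal NNReal

namespace Pool.Agent.V11210.HS

/-- three-dimensional space -/
abbrev E : Type := EuclideanSpace ℝ (Fin 3)

/-- a test function -/
def Tst (Ω : Set E) (φ : E → ℝ) : Prop :=
  ContDiff ℝ ((⊤ : ℕ∞) : WithTop ℕ∞) φ ∧ HasCompactSupport φ ∧ tsupport φ ⊆ Ω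

theorem norm_grad (φ : E → ℝ) (x : E) : ‖gradient φ x‖ = ‖fderiv ℝ φ x‖ := by
  unfold gradient
  rw [LinearIsometryEquiv.norm_map]

theorem eLpNorm_grad (φ : E → ℝ) (p : ℝ≥0∞) :
    eLpNorm (fderiv ℝ φ) p volume = eLpNorm (gradient φ) p volume :=
  eLpNorm_congr_norm_ae (Eventually.of_forall fun x => (norm_grad φ x).symm)

/-- the Sobolev inequality -/
theorem sobolev : ∃ S : ℝ≥0, ∀ φ : E → ℝ, ContDiff ℝ 1 φ → HasCompactSupport φ →
    eLpNorm φ 6 volume ≤ S * eLpNorm (gradient φ) 2 volume := by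
  refine ⟨eLpNormLESNormFDerivOfEqInnerConst (volume : Measure E) 2, ?_⟩
  intro φ h1 h2
  have h := eLpNorm_le_eLpNorm_fderiv_of_eq_inner (μ := (volume : Measure E)) (p := 2) (p' := 6)
    h1 h2 (by norm_num) (by simp) (by simp; norm_num)
  rw [eLpNorm_grad] at h
  exact_mod_cast h

theorem sq_norm_grad (φ : E → ℝ) (x : E) :
    ‖gradient φ x‖ ^ 2 = ∑ c : Fin 3, (fderiv ℝ φ x (EuclideanSpace.single c (1 : ℝ))) ^ 2 := by
  rw [EuclideanSpace.norm_sq_eq]
  refine Finset.sum_congr rfl fun c _ => ?_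
  have h : gradient φ x c = fderiv ℝ φ x (EuclideanSpace.single c (1 : ℝ)) := by
    have h1 : inner ℝ (gradient φ x) (EuclideanSpace.single c (1 : ℝ)) =
        fderiv ℝ φ x (EuclideanSpace.single c (1 : ℝ)) := by
      unfold gradient
      rw [InnerProductSpace.toDual_symm_apply]
    rw [← h1, EuclideanSpace.inner_single_right]
    simp
  rw [h, Real.norm_eq_abs, sq_abs]

theorem gsq_ofReal (φ : E → ℝ) (hφ : ContDiff ℝ 1 φ) (x : E) :
    Pool.Agent.H5R2.NL.gsq (fun x => (φ x : ℂ)) x = ‖gradient φ x‖ ^ 2 := by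
  rw [sq_norm_grad]
  unfold Pool.Agent.H5R2.NL.gsq
  refine Finset.sum_congr rfl fun c _ => ?_
  have h1 : HasFDerivAt φ (fderiv ℝ φ x) x := (hφ.differentiable one_ne_zero x).hasFDerivAt
  have h2 : HasFDerivAt (fun x => (φ x : ℂ)) (Complex.ofRealCLM.comp (fderiv ℝ φ x)) x :=
    Complex.ofRealCLM.hasFDerivAt.comp x h1
  rw [h2.fderiv]
  simp [sq_abs]

/-- Hardy's inequality -/
theorem hardy (φ : E → ℝ) (h1 : ContDiff ℝ 1 φ) (h2 : HasCompactSupport φ) :
    Integrable (fun x => (φ x / ‖x‖) ^ 2) ∧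
      ∫ x, (φ x / ‖x‖) ^ 2 ≤ 4 * ∫ x, ‖gradient φ x‖ ^ 2 := by
  have hc1 : ContDiff ℝ 1 (fun x => (φ x : ℂ)) := Complex.ofRealCLM.contDiff.comp h1
  have hc2 : HasCompactSupport (fun x => (φ x : ℂ)) := h2.comp_left (g := Complex.ofReal) rfl
  obtain ⟨ha, hb⟩ := Pool.Agent.H5R2.NL.hardy 0 (fun x => (φ x : ℂ)) hc1 hc2
  have e1 : (fun x : E => ‖(φ x : ℂ)‖ ^ 2 / ‖x - 0‖ ^ 2) = fun x => (φ x / ‖x‖) ^ 2 := by
    funext x
    simp [div_pow, sq_abs]
  rw [e1] at ha hb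
  refine ⟨ha, ?_⟩
  simpa only [gsq_ofReal φ h1] using hb

theorem eLpNorm_two {α : Type} [MeasurableSpace α] {μ : Measure α} {F : Type}
    [NormedAddCommGroup F] {f : α → F} (hf : MemLp f 2 μ) :
    eLpNorm f 2 μ = ENNReal.ofReal (Real.sqrt (∫ x, ‖f x‖ ^ 2 ∂μ)) := by
  rw [hf.eLpNorm_eq_integral_rpow_norm (by norm_num) (by norm_num)]
  congr 1
  rw [Real.sqrt_eq_rpow]
  simp

theorem memLp_grad (φ : E → ℝ) (h1 : ContDiff ℝ 1 φ) (h2 : HasCompactSupport φ) (p : ℝ≥0∞) :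
    MemLp (gradient φ) p volume := by
  have h3 : MemLp (fderiv ℝ φ) p volume :=
    (h1.continuous_fderiv one_ne_zero).memLp_of_hasCompactSupport (h2.fderiv (𝕜 := ℝ))
  have h4 : Continuous (gradient φ) := by
    unfold gradient
    exact (LinearIsometryEquiv.continuous _).comp (h1.continuous_fderiv one_ne_zero)
  exact h3.congr_norm h4.aestronglyMeasurable
    (Eventually.of_forall fun x => (norm_grad φ x).symm)

theorem memLp_two_of_sq {f : E → ℝ} (hm : AEStronglyMeasurable f volume)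
    (h : Integrable (fun x => f x ^ 2)) : MemLp f 2 volume := by
  rw [memLp_two_iff_integrable_sq hm]
  exact h

theorem meas_divn {f : E → ℝ} (hf : AEStronglyMeasurable f volume) :
    AEStronglyMeasurable (fun x => f x / ‖x‖) volume := by
  have h1 : Measurable fun x : E => ‖x‖⁻¹ := measurable_norm.inv
  simp only [div_eq_mul_inv]
  exact hf.mul h1.aestronglyMeasurable

theorem hardyL (φ : E → ℝ) (h1 : ContDiff ℝ 1 φ) (h2 : HasCompactSupport φ) :
    MemLp (fun x => φ x / ‖x‖) 2 volume ∧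
    eLpNorm (fun x => φ x / ‖x‖) 2 volume ≤ 2 * eLpNorm (gradient φ) 2 volume := by
  obtain ⟨ha, hb⟩ := hardy φ h1 h2
  have hm : MemLp (fun x => φ x / ‖x‖) 2 volume :=
    memLp_two_of_sq (meas_divn h1.continuous.aestronglyMeasurable) ha
  refine ⟨hm, ?_⟩
  rw [eLpNorm_two hm, eLpNorm_two (memLp_grad φ h1 h2 2)]
  have h3 : (2 : ℝ≥0∞) * ENNReal.ofReal √(∫ (x : E), ‖gradient φ x‖ ^ 2) =
      ENNReal.ofReal (2 * √(∫ (x : E), ‖gradient φ x‖ ^ 2)) := by
    rw [ENNReal.ofReal_mul (by norm_num)]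
    simp
  refine le_of_le_of_eq ?_ h3.symm
  apply ENNReal.ofReal_le_ofReal
  have h4 : (2 : ℝ) = Real.sqrt 4 := by
    rw [show (4 : ℝ) = 2 ^ 2 by norm_num, Real.sqrt_sq (by norm_num)]
  rw [h4, ← Real.sqrt_mul (by norm_num)]
  apply Real.sqrt_le_sqrt
  simpa only [Real.norm_eq_abs, sq_abs] using hb

/-- lower semicontinuity of weighted norms -/
theorem fatou {f : E → ℝ} {fn : ℕ → E → ℝ} (hf : AEStronglyMeasurable f volume)
    (hfn : ∀ n, AEStronglyMeasurable (fn n) volume)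
    (h : Tendsto (fun n => eLpNorm (fun x => fn n x - f x) 2 volume) atTop (𝓝 0))
    (m : E → ℝ) (hm : Measurable m) (r : ℝ≥0∞) {a : ℕ → ℝ≥0∞} {A : ℝ≥0∞}
    (ha : Tendsto a atTop (𝓝 A))
    (hb : ∀ n, eLpNorm (fun x => fn n x * m x) r volume ≤ a n) :
    eLpNorm (fun x => f x * m x) r volume ≤ A := by
  have h1 : TendstoInMeasure volume fn atTop f :=
    tendstoInMeasure_of_tendsto_eLpNorm (by norm_num) hfn hf h
  obtain ⟨ns, hns, hae⟩ := h1.exists_seq_tendsto_ae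
  have h2 : ∀ᵐ x : E, Tendsto (fun n => fn (ns n) x * m x) atTop (𝓝 (f x * m x)) := by
    filter_upwards [hae] with x hx
    exact hx.mul_const _
  have h3 := Lp.eLpNorm_lim_le_liminf_eLpNorm (p := r)
    (fun n => (hfn (ns n)).mul hm.aestronglyMeasurable) _ h2
  refine h3.trans ?_
  have h4 : Tendsto (fun n => a (ns n)) atTop (𝓝 A) := ha.comp hns.tendsto_atTop
  rw [← h4.liminf_eq]
  exact liminf_le_liminf (Eventually.of_forall fun n => hb (ns n))

/-- limits of test functions -/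
structure HZ (Ω : Set E) (u : E → ℝ) (G : E → E) : Prop where
  mu : MemLp u 2 volume
  mG : MemLp G 2 volume
  ex : ∃ φ : ℕ → E → ℝ, (∀ n, Tst Ω (φ n)) ∧
    Tendsto (fun n => eLpNorm (fun x => φ n x - u x) 2 volume) atTop (𝓝 0) ∧
    Tendsto (fun n => eLpNorm (fun x => gradient (φ n) x - G x) 2 volume) atTop (𝓝 0)

theorem tendsto_norm {F : Type} [NormedAddCommGroup F] {f : E → F} {fn : ℕ → E → F}
    (hf : MemLp f 2 volume) (hfn : ∀ n, MemLp (fn n) 2 volume)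
    (h : Tendsto (fun n => eLpNorm (fun x => fn n x - f x) 2 volume) atTop (𝓝 0)) :
    Tendsto (fun n => eLpNorm (fn n) 2 volume) atTop (𝓝 (eLpNorm f 2 volume)) := by
  have h1 : Tendsto (fun n => (hfn n).toLp (fn n)) atTop (𝓝 (hf.toLp f)) := by
    rw [Lp.tendsto_Lp_iff_tendsto_eLpNorm'']
    exact h
  have h2 := (ENNReal.continuous_ofReal.tendsto _).comp (h1.norm)
  refine (h2.congr fun n => ?_).trans_eq ?_
  · simp only [Function.comp, Lp.norm_toLp]
    exact ENNReal.ofReal_toReal (hfn n).2.ne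
  · rw [Lp.norm_toLp, ENNReal.ofReal_toReal hf.2.ne]

theorem Tst.c1 {Ω : Set E} {φ : E → ℝ} (h : Tst Ω φ) : ContDiff ℝ 1 φ :=
  h.1.of_le (by norm_num)

theorem Tst.memLp {Ω : Set E} {φ : E → ℝ} (h : Tst Ω φ) (p : ℝ≥0∞) : MemLp φ p volume :=
  h.1.continuous.memLp_of_hasCompactSupport h.2.1

theorem Tst.memLpG {Ω : Set E} {φ : E → ℝ} (h : Tst Ω φ) (p : ℝ≥0∞) :
    MemLp (gradient φ) p volume := memLp_grad φ h.c1 h.2.1 p

/-- bounds for test functions pass to limits -/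
theorem HZ.bound {Ω : Set E} {u : E → ℝ} {G : E → E} (h : HZ Ω u G) (m : E → ℝ)
    (hm : Measurable m) (r : ℝ≥0∞) (C : ℝ≥0∞) (hC : C ≠ ⊤)
    (hb : ∀ φ, Tst Ω φ → eLpNorm (fun x => φ x * m x) r volume ≤ C * eLpNorm (gradient φ) 2 volume) :
    eLpNorm (fun x => u x * m x) r volume ≤ C * eLpNorm G 2 volume := by
  obtain ⟨φ, h1, h2, h3⟩ := h.ex
  refine fatou h.mu.1 (fun n => ((h1 n).memLp 2).1) h2 m hm r ?_ (fun n => hb _ (h1 n))
  exact ENNReal.Tendsto.const_mul (tendsto_norm h.mG (fun n => (h1 n).memLpG 2) h3) (Or.inr hC)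

end Pool.Agent.V11210.HS
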