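import Mathlib
import Pool.Agent.V11210.HS.Sob

/-!
# Dilations and the difference quotient in the direction of the dilations
-/

set_option autoImplicit false

open MeasureTheory Filter Topology Set
open scoped ENNReal NNReal

namespace Pool.Agent.V11210.HS

/-- change of variables -/
theorem integral_dil (f : E → ℝ) {τ : ℝ} (hτ : 0 < τ) :
    ∫ x, f ((τ ^ 2)⁻¹ • x) = τ ^ 6 * ∫ x, f x := by
  rw [Measure.integral_comp_smul]
  have h1 : Module.finrank ℝ E = 3 := by simp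
  rw [h1, smul_eq_mul]
  congr 1
  rw [inv_pow, inv_inv, abs_of_pos (by positivity)]
  ring

theorem integrable_dil {F : Type} [NormedAddCommGroup F] {f : E → F} {τ : ℝ} (hτ : 0 < τ)
    (hf : Integrable f) :
    Integrable (fun x => f ((τ ^ 2)⁻¹ • x)) :=
  hf.comp_smul (by positivity)

/-- the generator of the dilations -/
noncomputable def Lf (φ : E → ℝ) (y : E) : ℝ := φ y + 2 * inner ℝ (gradient φ y) y

theorem hasDeriv_dil (φ : E → ℝ) (h1 : ContDiff ℝ 1 φ) (x : E) {σ : ℝ} (hσ : 0 < σ) :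
    HasDerivAt (fun s : ℝ => s⁻¹ * φ ((s ^ 2)⁻¹ • x)) (-(σ ^ 2)⁻¹ * Lf φ ((σ ^ 2)⁻¹ • x)) σ := by
  have a1 : HasDerivAt (fun s : ℝ => s⁻¹) (-(σ ^ 2)⁻¹) σ := hasDerivAt_inv hσ.ne'
  have a2 : HasDerivAt (fun s : ℝ => (s ^ 2)⁻¹) (-(2 * σ) / (σ ^ 2) ^ 2) σ := by
    have h : HasDerivAt (fun s : ℝ => (s ^ 2)⁻¹) _ σ := (hasDerivAt_pow 2 σ).fun_inv (by positivity)
    refine h.congr_deriv ?_
    norm_num
  have a3 : HasDerivAt (fun s : ℝ => (s ^ 2)⁻¹ • x) ((-(2 * σ) / (σ ^ 2) ^ 2) • x) σ :=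
    a2.smul_const x
  have a4 : HasFDerivAt φ (fderiv ℝ φ ((σ ^ 2)⁻¹ • x)) ((σ ^ 2)⁻¹ • x) :=
    (h1.differentiable one_ne_zero _).hasFDerivAt
  have a5 := a4.comp_hasDerivAt σ a3
  have a6 := a1.mul a5
  refine a6.congr_deriv ?_
  have e1 : inner ℝ (gradient φ ((σ ^ 2)⁻¹ • x)) ((σ ^ 2)⁻¹ • x) =
      (σ ^ 2)⁻¹ * fderiv ℝ φ ((σ ^ 2)⁻¹ • x) x := by
    unfold gradient
    rw [InnerProductSpace.toDual_symm_apply, map_smul, smul_eq_mul]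
  unfold Lf
  rw [e1, map_smul, smul_eq_mul]
  simp only [Function.comp]
  field_simp
  ring

theorem sq_intervalIntegral_le {a b : ℝ} (hab : a < b) (f : ℝ → ℝ) (hf : ContinuousOn f (Icc a b)) :
    (∫ x in a..b, f x) ^ 2 ≤ (b - a) * ∫ x in a..b, f x ^ 2 := by
  have hab' : uIcc a b = Icc a b := uIcc_of_le hab.le
  have i1 : IntervalIntegrable f volume a b := by
    apply ContinuousOn.intervalIntegrable
    rwa [hab']
  have i2 : IntervalIntegrable (fun x => f x ^ 2) volume a b := by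
    apply ContinuousOn.intervalIntegrable
    rw [hab']
    exact hf.pow 2
  set I := ∫ x in a..b, f x with hI
  set c := I / (b - a) with hc
  have hba : 0 < b - a := sub_pos.2 hab
  have h1 : 0 ≤ ∫ x in a..b, (f x - c) ^ 2 :=
    intervalIntegral.integral_nonneg hab.le fun x _ => sq_nonneg _
  have h2 : ∫ x in a..b, (f x - c) ^ 2 = (∫ x in a..b, f x ^ 2) - 2 * c * I + c ^ 2 * (b - a) := by
    have e : (fun x => (f x - c) ^ 2) = fun x => (f x ^ 2 - (2 * c) * f x) + c ^ 2 := by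
      funext x; ring
    rw [e, intervalIntegral.integral_add (i2.sub (i1.const_mul _)) (by simp),
      intervalIntegral.integral_sub i2 (i1.const_mul _), intervalIntegral.integral_const_mul,
      intervalIntegral.integral_const, smul_eq_mul, ← hI]
    ring
  rw [h2] at h1
  have h3 : c * (b - a) = I := by rw [hc]; field_simp
  nlinarith [h1, h3, hba]

theorem diff_point (φ : E → ℝ) (h1 : ContDiff ℝ 1 φ) (x : E) {τ : ℝ} (hτ : 0 < τ) (hτ1 : τ < 1) :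
    (τ⁻¹ * φ ((τ ^ 2)⁻¹ • x) - φ x) ^ 2 ≤
      (1 - τ) * ∫ σ in τ..1, (-(σ ^ 2)⁻¹ * Lf φ ((σ ^ 2)⁻¹ • x)) ^ 2 := by
  have hc : ContinuousOn (fun σ : ℝ => -(σ ^ 2)⁻¹ * Lf φ ((σ ^ 2)⁻¹ • x)) (Icc τ 1) := by
    have hg : Continuous (gradient φ) := by
      unfold gradient
      exact (LinearIsometryEquiv.continuous _).comp (h1.continuous_fderiv one_ne_zero)
    have hL : Continuous (Lf φ) := by
      unfold Lf
      exact h1.continuous.add (continuous_const.mul (hg.inner continuous_id))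
    have hi : ContinuousOn (fun σ : ℝ => (σ ^ 2)⁻¹) (Icc τ 1) := by
      apply ContinuousOn.inv₀ (by fun_prop)
      intro σ hσ
      have : 0 < σ := hτ.trans_le hσ.1
      positivity
    exact hi.neg.mul (hL.comp_continuousOn (hi.smul continuousOn_const))
  have h2 : ∫ σ in τ..1, (-(σ ^ 2)⁻¹ * Lf φ ((σ ^ 2)⁻¹ • x)) =
      (1:ℝ)⁻¹ * φ (((1:ℝ) ^ 2)⁻¹ • x) - τ⁻¹ * φ ((τ ^ 2)⁻¹ • x) := by
    refine intervalIntegral.integral_eq_sub_of_hasDerivAt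
      (f := fun s : ℝ => s⁻¹ * φ ((s ^ 2)⁻¹ • x)) ?_ ?_
    · intro σ hσ
      rw [uIcc_of_le hτ1.le] at hσ
      exact hasDeriv_dil φ h1 x (hτ.trans_le hσ.1)
    · apply ContinuousOn.intervalIntegrable
      rwa [uIcc_of_le hτ1.le]
  have h3 := sq_intervalIntegral_le hτ1 _ hc
  rw [h2] at h3
  have h4 : (τ⁻¹ * φ ((τ ^ 2)⁻¹ • x) - φ x) ^ 2 =
      ((1:ℝ)⁻¹ * φ (((1:ℝ) ^ 2)⁻¹ • x) - τ⁻¹ * φ ((τ ^ 2)⁻¹ • x)) ^ 2 := by
    have : φ (((1:ℝ) ^ 2)⁻¹ • x) = φ x := by simp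
    rw [this]
    ring
  rw [h4]
  exact h3

theorem map_dil {r : ℝ} (hr : r ≠ 0) : Measure.map (fun x : E => r • x) volume =
    ENNReal.ofReal |(r ^ 3)⁻¹| • (volume : Measure E) := by
  have h := Measure.map_addHaar_smul (volume : Measure E) hr
  have h1 : Module.finrank ℝ E = 3 := by simp
  rw [h1] at h
  exact h

theorem lintegral_dil (f : E → ℝ≥0∞) {r : ℝ} (hr : r ≠ 0) :
    ∫⁻ x, f (r • x) = ENNReal.ofReal |(r ^ 3)⁻¹| * ∫⁻ x, f x := by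
  have he : MeasurableEmbedding (fun x : E => r • x) :=
    (Homeomorph.smulOfNeZero r hr).measurableEmbedding
  have h := he.lintegral_map (μ := volume) f
  rw [map_dil hr, lintegral_smul_measure] at h
  rw [← h, smul_eq_mul]

theorem Lf_cont (φ : E → ℝ) (h1 : ContDiff ℝ 1 φ) : Continuous (Lf φ) := by
  have hg : Continuous (gradient φ) := by
    unfold gradient
    exact (LinearIsometryEquiv.continuous _).comp (h1.continuous_fderiv one_ne_zero)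
  unfold Lf
  exact h1.continuous.add (continuous_const.mul (hg.inner continuous_id))

/-- the inner integral -/
theorem inner_int (φ : E → ℝ) {σ : ℝ} (hσ : 0 < σ) :
    ∫⁻ x : E, ENNReal.ofReal (((-(σ ^ 2)⁻¹ * Lf φ ((σ ^ 2)⁻¹ • x)) / ‖x‖) ^ 2) =
      ENNReal.ofReal ((σ ^ 2)⁻¹) * ∫⁻ y : E, ENNReal.ofReal ((Lf φ y / ‖y‖) ^ 2) := by
  have h1 : ∀ x : E, ENNReal.ofReal (((-(σ ^ 2)⁻¹ * Lf φ ((σ ^ 2)⁻¹ • x)) / ‖x‖) ^ 2) =
      ENNReal.ofReal ((σ ^ 8)⁻¹) * ENNReal.ofReal ((Lf φ ((σ ^ 2)⁻¹ • x) / ‖(σ ^ 2)⁻¹ • x‖) ^ 2) := by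
    intro x
    rw [← ENNReal.ofReal_mul (by positivity)]
    congr 1
    rw [norm_smul, Real.norm_eq_abs, abs_of_pos (by positivity : (0:ℝ) < (σ ^ 2)⁻¹)]
    by_cases hx : ‖x‖ = 0
    · simp [hx]
    · field_simp
  simp_rw [h1]
  rw [lintegral_const_mul' _ _ ENNReal.ofReal_ne_top,
    lintegral_dil (fun y => ENNReal.ofReal ((Lf φ y / ‖y‖) ^ 2)) (by positivity : (σ ^ 2)⁻¹ ≠ 0),
    ← mul_assoc, ← ENNReal.ofReal_mul (by positivity)]
  congr 2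
  rw [abs_of_pos (by positivity)]
  field_simp

theorem diff_lint (φ : E → ℝ) (h1 : ContDiff ℝ 1 φ) {τ : ℝ} (hτ : 1 / 2 ≤ τ) (hτ1 : τ < 1) :
    ∫⁻ x : E, ENNReal.ofReal (((τ⁻¹ * φ ((τ ^ 2)⁻¹ • x) - φ x) / ‖x‖) ^ 2) ≤
      ENNReal.ofReal (4 * (1 - τ) ^ 2) * ∫⁻ y : E, ENNReal.ofReal ((Lf φ y / ‖y‖) ^ 2) := by
  have hτ0 : 0 < τ := by linarith
  set I := ∫⁻ y : E, ENNReal.ofReal ((Lf φ y / ‖y‖) ^ 2) with hI
  have hp : ∀ x : E, ENNReal.ofReal (((τ⁻¹ * φ ((τ ^ 2)⁻¹ • x) - φ x) / ‖x‖) ^ 2) ≤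
      ENNReal.ofReal (1 - τ) * ∫⁻ σ in Ioc τ 1,
        ENNReal.ofReal (((-(σ ^ 2)⁻¹ * Lf φ ((σ ^ 2)⁻¹ • x)) / ‖x‖) ^ 2) := by
    intro x
    have h2 := diff_point φ h1 x hτ0 hτ1
    have h3 : (∫ σ in τ..1, ((-(σ ^ 2)⁻¹ * Lf φ ((σ ^ 2)⁻¹ • x)) / ‖x‖) ^ 2) =
        (∫ σ in τ..1, (-(σ ^ 2)⁻¹ * Lf φ ((σ ^ 2)⁻¹ • x)) ^ 2) / ‖x‖ ^ 2 := by
      simp_rw [div_pow]
      rw [intervalIntegral.integral_div]
    have h4 : ((τ⁻¹ * φ ((τ ^ 2)⁻¹ • x) - φ x) / ‖x‖) ^ 2 ≤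
        (1 - τ) * ∫ σ in τ..1, ((-(σ ^ 2)⁻¹ * Lf φ ((σ ^ 2)⁻¹ • x)) / ‖x‖) ^ 2 := by
      rw [h3, div_pow, ← mul_div_assoc]
      gcongr
    have hc : ContinuousOn (fun σ : ℝ => ((-(σ ^ 2)⁻¹ * Lf φ ((σ ^ 2)⁻¹ • x)) / ‖x‖) ^ 2)
        (Icc τ 1) := by
      have hi : ContinuousOn (fun σ : ℝ => (σ ^ 2)⁻¹) (Icc τ 1) := by
        apply ContinuousOn.inv₀ (by fun_prop)
        intro σ hσ
        have : 0 < σ := hτ0.trans_le hσ.1
        positivity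
      exact ((hi.neg.mul ((Lf_cont φ h1).comp_continuousOn
        (hi.smul continuousOn_const))).div_const _).pow 2
    have hi : IntegrableOn (fun σ : ℝ => ((-(σ ^ 2)⁻¹ * Lf φ ((σ ^ 2)⁻¹ • x)) / ‖x‖) ^ 2)
        (Ioc τ 1) := (hc.integrableOn_Icc).mono_set Ioc_subset_Icc_self
    refine (ENNReal.ofReal_le_ofReal h4).trans ?_
    rw [ENNReal.ofReal_mul (by linarith), intervalIntegral.integral_of_le hτ1.le,
      ofReal_integral_eq_lintegral_ofReal hi (Eventually.of_forall fun _ => sq_nonneg _)]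
  refine (lintegral_mono hp).trans ?_
  rw [lintegral_const_mul' _ _ ENNReal.ofReal_ne_top]
  have hmeas : Measurable (Function.uncurry fun (x : E) (σ : ℝ) =>
      ENNReal.ofReal (((-(σ ^ 2)⁻¹ * Lf φ ((σ ^ 2)⁻¹ • x)) / ‖x‖) ^ 2)) := by
    have hL := (Lf_cont φ h1).measurable
    have a1 : Measurable fun z : E × ℝ => (z.2 ^ 2)⁻¹ := (measurable_snd.pow_const 2).inv
    have a2 : Measurable fun z : E × ℝ => Lf φ ((z.2 ^ 2)⁻¹ • z.1) :=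
      hL.comp (a1.smul measurable_fst)
    exact (((a1.neg.mul a2).div measurable_fst.norm).pow_const 2).ennreal_ofReal
  rw [lintegral_lintegral_swap hmeas.aemeasurable]
  have hin : ∀ σ ∈ Ioc τ 1, ∫⁻ x : E, ENNReal.ofReal
      (((-(σ ^ 2)⁻¹ * Lf φ ((σ ^ 2)⁻¹ • x)) / ‖x‖) ^ 2) ≤ ENNReal.ofReal 4 * I := by
    intro σ hσ
    have hσ0 : 0 < σ := hτ0.trans hσ.1
    rw [inner_int φ hσ0]
    gcongr
    rw [inv_le_comm₀ (by positivity) (by norm_num)]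
    nlinarith [hσ.1]
  have h5 : ∫⁻ σ in Ioc τ 1, ∫⁻ x : E, ENNReal.ofReal
      (((-(σ ^ 2)⁻¹ * Lf φ ((σ ^ 2)⁻¹ • x)) / ‖x‖) ^ 2) ≤
      ∫⁻ σ in Ioc τ 1, (ENNReal.ofReal 4 * I) :=
    setLIntegral_mono measurable_const hin
  refine (mul_le_mul_right h5 _).trans ?_
  rw [setLIntegral_const, Real.volume_Ioc]
  rw [show 4 * (1 - τ) ^ 2 = (1 - τ) * (4 * (1 - τ)) by ring, ENNReal.ofReal_mul (by linarith),
    ENNReal.ofReal_mul (by norm_num)]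
  apply le_of_eq
  ring

end Pool.Agent.V11210.HS
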