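import Mathlib
import Pool.Agent.V11210.HS.Diff

/-!
# Limits of test functions: inequalities, differences, dilations
-/

set_option autoImplicit false

open MeasureTheory Filter Topology Set
open scoped ENNReal NNReal

namespace Pool.Agent.V11210.HS

theorem eLpNorm_dil {F : Type} [NormedAddCommGroup F] (f : E → F) {r : ℝ} (hr : r ≠ 0)
    {p : ℝ≥0∞} (hp : p ≠ ⊤) :
    eLpNorm (fun x => f (r • x)) p volume =
      ENNReal.ofReal |(r ^ 3)⁻¹| ^ (1 / p).toReal * eLpNorm f p volume := by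
  have he : MeasurableEmbedding (fun x : E => r • x) :=
    (Homeomorph.smulOfNeZero r hr).measurableEmbedding
  have h := he.eLpNorm_map_measure (μ := volume) (g := f) (p := p)
  rw [map_dil hr, eLpNorm_smul_measure_of_ne_top hp, smul_eq_mul] at h
  exact h.symm

theorem memLp_dil {F : Type} [NormedAddCommGroup F] {f : E → F} {r : ℝ} (hr : r ≠ 0)
    {p : ℝ≥0∞} (hp : p ≠ ⊤) (hf : MemLp f p volume) : MemLp (fun x => f (r • x)) p volume := by
  refine ⟨?_, ?_⟩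
  · have he : MeasurableEmbedding (fun x : E => r • x) :=
      (Homeomorph.smulOfNeZero r hr).measurableEmbedding
    have h : AEStronglyMeasurable f (Measure.map (fun x : E => r • x) volume) := by
      rw [map_dil hr]
      exact hf.1.smul_measure _
    exact h.comp_measurable he.measurable
  · rw [eLpNorm_dil f hr hp]
    exact ENNReal.mul_lt_top (ENNReal.rpow_lt_top_of_nonneg (by positivity)
      ENNReal.ofReal_ne_top) hf.2

theorem tendsto_dil {F : Type} [NormedAddCommGroup F] (f : ℕ → E → F) {r : ℝ} (hr : r ≠ 0)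
    {p : ℝ≥0∞} (hp : p ≠ ⊤) (hf : Tendsto (fun n => eLpNorm (f n) p volume) atTop (𝓝 0)) :
    Tendsto (fun n => eLpNorm (fun x => f n (r • x)) p volume) atTop (𝓝 0) := by
  simp_rw [fun n => eLpNorm_dil (f n) hr hp]
  have h := ENNReal.Tendsto.const_mul hf (a := ENNReal.ofReal |(r ^ 3)⁻¹| ^ (1 / p).toReal)
    (Or.inr (ENNReal.rpow_lt_top_of_nonneg (by positivity) ENNReal.ofReal_ne_top).ne)
  simpa using h

theorem eLpNorm_two_real (g : E → ℝ) :
    eLpNorm g 2 volume = (∫⁻ x, ENNReal.ofReal (g x ^ 2)) ^ (1 / 2 : ℝ) := by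
  rw [eLpNorm_eq_lintegral_rpow_enorm_toReal (by norm_num) (by norm_num)]
  simp only [ENNReal.toReal_ofNat]
  congr 1
  apply lintegral_congr
  intro x
  rw [← ofReal_norm, Real.norm_eq_abs, ENNReal.ofReal_rpow_of_nonneg (abs_nonneg _)
    (by norm_num)]
  congr 1
  rw [show (2 : ℝ) = ((2 : ℕ) : ℝ) by norm_num, Real.rpow_natCast, sq_abs]

theorem gradient_dil (φ : E → ℝ) (h1 : ContDiff ℝ 1 φ) (a r : ℝ) (x : E) :
    gradient (fun x => a * φ (r • x)) x = (a * r) • gradient φ (r • x) := by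
  have h2 : HasFDerivAt φ (fderiv ℝ φ (r • x)) (r • x) :=
    (h1.differentiable one_ne_zero _).hasFDerivAt
  have h3 : HasFDerivAt (fun x : E => r • x) (r • ContinuousLinearMap.id ℝ E) x :=
    (r • ContinuousLinearMap.id ℝ E).hasFDerivAt
  have h4 : HasFDerivAt (fun x => a * φ (r • x)) _ x := (h2.comp x h3).const_mul a
  have h5 : fderiv ℝ (fun x => a * φ (r • x)) x = (a * r) • fderiv ℝ φ (r • x) := by
    rw [h4.fderiv]
    ext v
    simp
    ring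
  unfold gradient
  rw [h5]
  simp

theorem Tst.dil {Ω : Set E} {φ : E → ℝ} (h : Tst Ω φ) {τ : ℝ} (hτ : 0 < τ)
    (hΩ : ∀ x ∈ Ω, (τ ^ 2) • x ∈ Ω) : Tst Ω (fun x => τ⁻¹ * φ ((τ ^ 2)⁻¹ • x)) := by
  have hr : (τ ^ 2)⁻¹ ≠ 0 := by positivity
  have hcl : tsupport (fun x => τ⁻¹ * φ ((τ ^ 2)⁻¹ • x)) ⊆
      (fun x : E => (τ ^ 2)⁻¹ • x) ⁻¹' tsupport φ := by
    apply closure_minimal
    · intro x hx
      apply subset_tsupport
      rw [Function.mem_support] at hx ⊢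
      intro h0
      apply hx
      rw [h0, mul_zero]
    · exact (isClosed_tsupport φ).preimage (by fun_prop)
  refine ⟨?_, ?_, ?_⟩
  · exact contDiff_const.mul (h.1.comp (contDiff_const_smul _))
  · have h3 : HasCompactSupport (fun x => φ ((τ ^ 2)⁻¹ • x)) :=
      h.2.1.comp_homeomorph (Homeomorph.smulOfNeZero (τ ^ 2)⁻¹ hr)
    exact h3.mul_left
  · intro x hx
    have h4 := h.2.2 (hcl hx)
    have h5 := hΩ _ h4
    rwa [smul_smul, mul_inv_cancel₀ (by positivity), one_smul] at h5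

theorem HZ.dil {Ω : Set E} {u : E → ℝ} {G : E → E} (h : HZ Ω u G) {τ : ℝ} (hτ : 0 < τ)
    (hΩ : ∀ x ∈ Ω, (τ ^ 2) • x ∈ Ω) :
    HZ Ω (fun x => τ⁻¹ * u ((τ ^ 2)⁻¹ • x)) (fun x => (τ ^ 3)⁻¹ • G ((τ ^ 2)⁻¹ • x)) := by
  have hr : (τ ^ 2)⁻¹ ≠ 0 := by positivity
  obtain ⟨φ, h1, h2, h3⟩ := h.ex
  have hG1 : MemLp (fun x => (τ ^ 3)⁻¹ • G ((τ ^ 2)⁻¹ • x)) 2 volume :=
    (memLp_dil hr (by norm_num) h.mG).const_smul ((τ ^ 3)⁻¹ : ℝ)
  refine ⟨(memLp_dil hr (by norm_num) h.mu).const_mul _, hG1,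
    fun n x => τ⁻¹ * φ n ((τ ^ 2)⁻¹ • x), fun n => (h1 n).dil hτ hΩ, ?_, ?_⟩
  · have a1 := tendsto_dil (fun n x => φ n x - u x) hr (p := 2) (by norm_num) h2
    have a2 : ∀ n, eLpNorm (fun x => τ⁻¹ * φ n ((τ ^ 2)⁻¹ • x) - τ⁻¹ * u ((τ ^ 2)⁻¹ • x)) 2 volume =
        ‖τ⁻¹‖ₑ * eLpNorm (fun x => φ n ((τ ^ 2)⁻¹ • x) - u ((τ ^ 2)⁻¹ • x)) 2 volume := by
      intro n
      rw [← eLpNorm_const_smul]
      congr 1
      funext x
      simp only [Pi.smul_apply, smul_eq_mul]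
      ring
    simp_rw [a2]
    have a3 := ENNReal.Tendsto.const_mul a1 (a := ‖τ⁻¹‖ₑ) (Or.inr (by simp))
    simpa using a3
  · have a1 := tendsto_dil (fun n x => gradient (φ n) x - G x) hr (p := 2) (by norm_num) h3
    have a2 : ∀ n, eLpNorm (fun x => gradient (fun x => τ⁻¹ * φ n ((τ ^ 2)⁻¹ • x)) x -
        (τ ^ 3)⁻¹ • G ((τ ^ 2)⁻¹ • x)) 2 volume = ‖(τ ^ 3)⁻¹‖ₑ *
          eLpNorm (fun x => gradient (φ n) ((τ ^ 2)⁻¹ • x) - G ((τ ^ 2)⁻¹ • x)) 2 volume := by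
      intro n
      rw [← eLpNorm_const_smul]
      congr 1
      funext x
      rw [gradient_dil (φ n) (h1 n).c1]
      simp only [Pi.smul_apply]
      rw [smul_sub]
      congr 2
      field_simp
    simp_rw [a2]
    have a3 := ENNReal.Tendsto.const_mul a1 (a := ‖(τ ^ 3)⁻¹‖ₑ) (Or.inr (by simp))
    simpa using a3

theorem gradient_sub' {φ ψ : E → ℝ} (h1 : ContDiff ℝ 1 φ) (h2 : ContDiff ℝ 1 ψ) (x : E) :
    gradient (fun x => φ x - ψ x) x = gradient φ x - gradient ψ x := by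
  unfold gradient
  have h3 : fderiv ℝ (fun x => φ x - ψ x) x = fderiv ℝ φ x - fderiv ℝ ψ x :=
    fderiv_fun_sub (h1.differentiable one_ne_zero x) (h2.differentiable one_ne_zero x)
  rw [h3, map_sub]

theorem HZ.sub {Ω : Set E} {u v : E → ℝ} {G V : E → E} (h : HZ Ω u G) (h' : HZ Ω v V) :
    HZ Ω (fun x => u x - v x) (fun x => G x - V x) := by
  obtain ⟨φ, h1, h2, h3⟩ := h.ex
  obtain ⟨ψ, g1, g2, g3⟩ := h'.ex
  refine ⟨h.mu.sub h'.mu, h.mG.sub h'.mG, fun n x => φ n x - ψ n x, ?_, ?_, ?_⟩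
  · intro n
    refine ⟨(h1 n).1.sub (g1 n).1, (h1 n).2.1.sub (g1 n).2.1, ?_⟩
    exact (tsupport_sub _ _).trans (union_subset (h1 n).2.2 (g1 n).2.2)
  · have h4 := h2.add g2
    rw [add_zero] at h4
    refine tendsto_of_tendsto_of_tendsto_of_le_of_le tendsto_const_nhds h4 (fun _ => zero_le)
      (fun n => ?_)
    have e : (fun x => φ n x - ψ n x - (u x - v x)) =
        (fun x => φ n x - u x) - fun x => ψ n x - v x := by
      funext x; simp only [Pi.sub_apply]; ring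
    show eLpNorm (fun x => φ n x - ψ n x - (u x - v x)) 2 volume ≤ _
    rw [e]
    exact eLpNorm_sub_le (((h1 n).memLp 2).1.sub h.mu.1) (((g1 n).memLp 2).1.sub h'.mu.1)
      (by norm_num)
  · have h4 := h3.add g3
    rw [add_zero] at h4
    refine tendsto_of_tendsto_of_tendsto_of_le_of_le tendsto_const_nhds h4 (fun _ => zero_le)
      (fun n => ?_)
    have e : (fun x => gradient (fun x => φ n x - ψ n x) x - (G x - V x)) =
        (fun x => gradient (φ n) x - G x) - fun x => gradient (ψ n) x - V x := by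
      funext x
      rw [gradient_sub' (h1 n).c1 (g1 n).c1]
      simp only [Pi.sub_apply]; abel
    show eLpNorm (fun x => gradient (fun x => φ n x - ψ n x) x - (G x - V x)) 2 volume ≤ _
    rw [e]
    exact eLpNorm_sub_le (((h1 n).memLpG 2).1.sub h.mG.1) (((g1 n).memLpG 2).1.sub h'.mG.1)
      (by norm_num)

theorem HZ.sob : ∃ S : ℝ≥0, ∀ (Ω : Set E) (u : E → ℝ) (G : E → E), HZ Ω u G →
    eLpNorm u 6 volume ≤ S * eLpNorm G 2 volume := by
  obtain ⟨S, hS⟩ := sobolev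
  refine ⟨S, fun Ω u G h => ?_⟩
  have h2 := h.bound (fun _ => 1) measurable_const 6 S (by simp) (fun φ hφ => by
    simpa using hS φ hφ.c1 hφ.2.1)
  simpa using h2

theorem HZ.hardy {Ω : Set E} {u : E → ℝ} {G : E → E} (h : HZ Ω u G) :
    eLpNorm (fun x => u x * ‖x‖⁻¹) 2 volume ≤ 2 * eLpNorm G 2 volume := by
  refine h.bound (fun x => ‖x‖⁻¹) measurable_norm.inv 2 2 (by norm_num) (fun φ hφ => ?_)
  have := (hardyL φ hφ.c1 hφ.2.1).2
  simpa only [div_eq_mul_inv] using this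

theorem L_bound (φ : E → ℝ) (h1 : ContDiff ℝ 1 φ) (h2 : HasCompactSupport φ) :
    eLpNorm (fun x => Lf φ x / ‖x‖) 2 volume ≤ 4 * eLpNorm (gradient φ) 2 volume := by
  have e : (fun x => Lf φ x / ‖x‖) =
      (fun x => φ x / ‖x‖) + fun x => 2 * inner ℝ (gradient φ x) x / ‖x‖ := by
    funext x
    simp only [Pi.add_apply, Lf]
    ring
  have hc : Continuous (gradient φ) := by
    unfold gradient
    exact (LinearIsometryEquiv.continuous _).comp (h1.continuous_fderiv one_ne_zero)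
  have hm : AEStronglyMeasurable (fun x : E => 2 * inner ℝ (gradient φ x) x / ‖x‖) volume :=
    meas_divn (continuous_const.mul (hc.inner continuous_id)).aestronglyMeasurable
  rw [e]
  refine (eLpNorm_add_le (meas_divn h1.continuous.aestronglyMeasurable) hm (by norm_num)).trans ?_
  have h3 := (hardyL φ h1 h2).2
  have h4 : eLpNorm (fun x : E => 2 * inner ℝ (gradient φ x) x / ‖x‖) 2 volume ≤
      ENNReal.ofReal 2 * eLpNorm (gradient φ) 2 volume := by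
    refine eLpNorm_le_mul_eLpNorm_of_ae_le_mul (Eventually.of_forall fun x => ?_) 2
    rw [norm_div, norm_mul, norm_norm]
    by_cases hx : ‖x‖ = 0
    · rw [hx]; simp
    · have h0 : 0 < ‖x‖ := lt_of_le_of_ne (norm_nonneg x) (Ne.symm hx)
      rw [div_le_iff₀ h0]
      have := norm_inner_le_norm (𝕜 := ℝ) (gradient φ x) x
      rw [Real.norm_ofNat]
      nlinarith
  refine (add_le_add h3 h4).trans (le_of_eq ?_)
  rw [ENNReal.ofReal_ofNat, ← add_mul]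
  norm_num

theorem diffL (φ : E → ℝ) (h1 : ContDiff ℝ 1 φ) (h2 : HasCompactSupport φ) {τ : ℝ}
    (hτ : 1 / 2 ≤ τ) (hτ1 : τ < 1) :
    eLpNorm (fun x => (τ⁻¹ * φ ((τ ^ 2)⁻¹ • x) - φ x) * ‖x‖⁻¹) 2 volume ≤
      ENNReal.ofReal (8 * (1 - τ)) * eLpNorm (gradient φ) 2 volume := by
  have h3 := diff_lint φ h1 hτ hτ1
  have h4 := L_bound φ h1 h2
  rw [eLpNorm_two_real] at h4
  simp only [← div_eq_mul_inv]
  rw [eLpNorm_two_real]
  refine (ENNReal.rpow_le_rpow h3 (by norm_num)).trans ?_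
  rw [ENNReal.mul_rpow_of_nonneg _ _ (by norm_num)]
  have h5 : ENNReal.ofReal (4 * (1 - τ) ^ 2) ^ (1 / 2 : ℝ) = ENNReal.ofReal (2 * (1 - τ)) := by
    rw [ENNReal.ofReal_rpow_of_nonneg (by positivity) (by norm_num)]
    congr 1
    rw [← Real.sqrt_eq_rpow, show 4 * (1 - τ) ^ 2 = (2 * (1 - τ)) ^ 2 by ring,
      Real.sqrt_sq (by linarith)]
  rw [h5]
  refine (mul_le_mul_right h4 _).trans (le_of_eq ?_)
  rw [← mul_assoc]
  congr 1
  rw [show 8 * (1 - τ) = 2 * (1 - τ) * 4 by ring,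
    ENNReal.ofReal_mul (by linarith : 0 ≤ 2 * (1 - τ)), ENNReal.ofReal_ofNat]

theorem HZ.diff {Ω : Set E} {u : E → ℝ} {G : E → E} (h : HZ Ω u G) {τ : ℝ}
    (hτ : 1 / 2 ≤ τ) (hτ1 : τ < 1) :
    eLpNorm (fun x => (τ⁻¹ * u ((τ ^ 2)⁻¹ • x) - u x) * ‖x‖⁻¹) 2 volume ≤
      ENNReal.ofReal (8 * (1 - τ)) * eLpNorm G 2 volume := by
  have hτ0 : 0 < τ := by linarith
  have hr : (τ ^ 2)⁻¹ ≠ 0 := by positivity
  obtain ⟨φ, h1, h2, h3⟩ := h.ex
  refine fatou (fn := fun n x => τ⁻¹ * φ n ((τ ^ 2)⁻¹ • x) - φ n x)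
    (((memLp_dil hr (by norm_num) h.mu).const_mul _).sub h.mu).1
    (fun n => (((memLp_dil hr (by norm_num) ((h1 n).memLp 2)).const_mul _).sub ((h1 n).memLp 2)).1)
    ?_ (fun x => ‖x‖⁻¹) measurable_norm.inv 2
    (ENNReal.Tendsto.const_mul (tendsto_norm h.mG (fun n => (h1 n).memLpG 2) h3)
      (Or.inr ENNReal.ofReal_ne_top))
    (fun n => diffL (φ n) (h1 n).c1 (h1 n).2.1 hτ hτ1)
  have a1 := tendsto_dil (fun n x => φ n x - u x) hr (p := 2) (by norm_num) h2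
  have a3 := (ENNReal.Tendsto.const_mul a1 (a := ‖τ⁻¹‖ₑ) (Or.inr (by simp))).add h2
  rw [mul_zero, add_zero] at a3
  refine tendsto_of_tendsto_of_tendsto_of_le_of_le tendsto_const_nhds a3 (fun _ => zero_le)
    (fun n => ?_)
  have e : (fun x => τ⁻¹ * φ n ((τ ^ 2)⁻¹ • x) - φ n x - (τ⁻¹ * u ((τ ^ 2)⁻¹ • x) - u x)) =
      (τ⁻¹ • fun x => φ n ((τ ^ 2)⁻¹ • x) - u ((τ ^ 2)⁻¹ • x)) - fun x => φ n x - u x := by
    funext x
    simp only [Pi.sub_apply, Pi.smul_apply, smul_eq_mul]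
    ring
  show eLpNorm (fun x => τ⁻¹ * φ n ((τ ^ 2)⁻¹ • x) - φ n x - (τ⁻¹ * u ((τ ^ 2)⁻¹ • x) - u x)) 2
    volume ≤ ‖τ⁻¹‖ₑ * eLpNorm (fun x => φ n ((τ ^ 2)⁻¹ • x) - u ((τ ^ 2)⁻¹ • x)) 2 volume +
      eLpNorm (fun x => φ n x - u x) 2 volume
  rw [e, ← eLpNorm_const_smul]
  exact eLpNorm_sub_le (((memLp_dil hr (by norm_num) ((h1 n).memLp 2)).sub
    (memLp_dil hr (by norm_num) h.mu)).const_smul _).1 (((h1 n).memLp 2).1.sub h.mu.1)
    (by norm_num)

end Pool.Agent.V11210.HS
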