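import Mathlib
import Pool.Agent.V11210.HS.HZ

/-!
# The weak equation for limits of test functions
-/

set_option autoImplicit false

open MeasureTheory Filter Topology Set
open scoped ENNReal NNReal

namespace Pool.Agent.V11210.HS

instance h663 : ENNReal.HolderTriple 6 6 3 := ⟨by
  have h : (6:ℝ≥0∞)⁻¹ = ENNReal.ofReal (1/6) := by
    rw [one_div, ENNReal.ofReal_inv_of_pos (by norm_num)]; simp
  have h' : (3:ℝ≥0∞)⁻¹ = ENNReal.ofReal (1/3) := by
    rw [one_div, ENNReal.ofReal_inv_of_pos (by norm_num)]; simp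
  rw [h, h', ← ENNReal.ofReal_add (by norm_num) (by norm_num)]
  norm_num⟩

instance h362 : ENNReal.HolderTriple 3 6 2 := ⟨by
  have h : (6:ℝ≥0∞)⁻¹ = ENNReal.ofReal (1/6) := by
    rw [one_div, ENNReal.ofReal_inv_of_pos (by norm_num)]; simp
  have h' : (3:ℝ≥0∞)⁻¹ = ENNReal.ofReal (1/3) := by
    rw [one_div, ENNReal.ofReal_inv_of_pos (by norm_num)]; simp
  have h'' : (2:ℝ≥0∞)⁻¹ = ENNReal.ofReal (1/2) := by
    rw [one_div, ENNReal.ofReal_inv_of_pos (by norm_num)]; simp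
  rw [h, h', h'', ← ENNReal.ofReal_add (by norm_num) (by norm_num)]
  norm_num⟩

theorem HZ.six {Ω : Set E} {u : E → ℝ} {G : E → E} (h : HZ Ω u G) : MemLp u 6 volume := by
  obtain ⟨S, hS⟩ := HZ.sob
  exact ⟨h.mu.1, (hS Ω u G h).trans_lt (ENNReal.mul_lt_top (by simp) h.mG.2)⟩

theorem HZ.hd {Ω : Set E} {u : E → ℝ} {G : E → E} (h : HZ Ω u G) :
    MemLp (fun x => u x * ‖x‖⁻¹) 2 volume :=
  ⟨h.mu.1.mul measurable_norm.inv.aestronglyMeasurable,
    h.hardy.trans_lt (ENNReal.mul_lt_top (by simp) h.mG.2)⟩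

theorem HZ.sq3 {Ω : Set E} {u : E → ℝ} {G : E → E} (h : HZ Ω u G) :
    MemLp (fun x => u x ^ 2) 3 volume := by
  have h1 : MemLp (fun x => u x * u x) 3 volume := h.six.mul' h.six
  simpa only [sq] using h1

theorem HZ.cube {Ω : Set E} {u : E → ℝ} {G : E → E} (h : HZ Ω u G) :
    MemLp (fun x => u x ^ 3) 2 volume := by
  have h1 : MemLp (fun x => u x ^ 2 * u x) 2 volume := h.six.mul' h.sq3
  simpa only [pow_succ] using h1

theorem HZ.sq2 {Ω : Set E} {u : E → ℝ} {G : E → E} (h : HZ Ω u G) :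
    MemLp (fun x => u x ^ 2) 2 volume := by
  apply memLp_two_of_sq (f := fun x => u x ^ 2) (h.mu.1.pow 2)
  have h1 : Integrable (fun x => u x ^ 3 * u x) volume := h.cube.integrable_mul h.mu
  refine h1.congr (Eventually.of_forall fun x => ?_)
  simp only
  ring

theorem HZ.three {Ω : Set E} {u : E → ℝ} {G : E → E} (h : HZ Ω u G) : MemLp u 3 volume := by
  rw [← integrable_norm_rpow_iff h.mu.1 (by norm_num) (by norm_num)]
  have h1 : Integrable (fun x => u x ^ 2 * ‖u x‖) volume := h.sq2.integrable_mul h.mu.norm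
  refine h1.congr (Eventually.of_forall fun x => ?_)
  simp only [ENNReal.toReal_ofNat]
  rw [show (3:ℝ) = ((3:ℕ):ℝ) by norm_num, Real.rpow_natCast, Real.norm_eq_abs, ← sq_abs (u x)]
  ring

theorem HZ.mul2 {Ω : Set E} {u v : E → ℝ} {G V : E → E} (h : HZ Ω u G) (h' : HZ Ω v V) :
    MemLp (fun x => u x * v x) 2 volume := h'.six.mul' h.three

theorem Tst.hz {Ω : Set E} {φ : E → ℝ} (h : Tst Ω φ) : HZ Ω φ (gradient φ) := by
  refine ⟨h.memLp 2, h.memLpG 2, fun _ => φ, fun _ => h, ?_, ?_⟩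
  · simp
  · simp

/-- convergence of pairings -/
theorem tend_inner {F : Type} [NormedAddCommGroup F] [InnerProductSpace ℝ F] {f : E → F}
    (hf : MemLp f 2 volume) {g : ℕ → E → F} {k : E → F} (hg : ∀ n, MemLp (g n) 2 volume)
    (hk : MemLp k 2 volume)
    (h : Tendsto (fun n => eLpNorm (fun x => g n x - k x) 2 volume) atTop (𝓝 0)) :
    Tendsto (fun n => ∫ x, inner ℝ (f x) (g n x)) atTop (𝓝 (∫ x, inner ℝ (f x) (k x))) := by
  have h1 : Tendsto (fun n => (hg n).toLp (g n)) atTop (𝓝 (hk.toLp k)) := by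
    rw [Lp.tendsto_Lp_iff_tendsto_eLpNorm'']
    exact h
  have h2 : Tendsto (fun n => inner ℝ (hf.toLp f) ((hg n).toLp (g n))) atTop
      (𝓝 (inner ℝ (hf.toLp f) (hk.toLp k))) := tendsto_const_nhds.inner h1
  have key : ∀ {k : E → F} (hk : MemLp k 2 volume), inner ℝ (hf.toLp f) (hk.toLp k) =
      ∫ x, inner ℝ (f x) (k x) := by
    intro k hk
    rw [L2.inner_def]
    apply integral_congr_ae
    filter_upwards [hf.coeFn_toLp, hk.coeFn_toLp] with x hx hx'
    rw [hx, hx']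
  rw [key hk] at h2
  exact h2.congr fun n => key (hg n)

theorem tend_mul {f : E → ℝ}
    (hf : MemLp f 2 volume) {g : ℕ → E → ℝ} {k : E → ℝ} (hg : ∀ n, MemLp (g n) 2 volume)
    (hk : MemLp k 2 volume)
    (h : Tendsto (fun n => eLpNorm (fun x => g n x - k x) 2 volume) atTop (𝓝 0)) :
    Tendsto (fun n => ∫ x, f x * g n x) atTop (𝓝 (∫ x, f x * k x)) := by
  have h1 := tend_inner hf hg hk h
  simp only [RCLike.inner_apply, conj_trivial] at h1
  simpa only [mul_comm] using h1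

theorem integrable_inner' {F : Type} [NormedAddCommGroup F] [InnerProductSpace ℝ F] {f g : E → F}
    (hf : MemLp f 2 volume) (hg : MemLp g 2 volume) :
    Integrable (fun x => inner ℝ (f x) (g x)) volume := by
  have h := L2.integrable_inner (𝕜 := ℝ) (hf.toLp f) (hg.toLp g)
  refine h.congr ?_
  filter_upwards [hf.coeFn_toLp, hg.coeFn_toLp] with x hx hx'
  rw [hx, hx']

/-- the weak equation for limits of test functions -/
theorem weak_ext {Ω : Set E} {u : E → ℝ} {G : E → E} (h : HZ Ω u G)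
    (hw : ∀ ψ, Tst Ω ψ → ∫ x, (inner ℝ (G x) (gradient ψ x) + u x ^ 4 * ψ x
      - u x ^ 3 * ψ x / ‖x‖) = 0) {v : E → ℝ} {V : E → E} (hv : HZ Ω v V) :
    (∫ x, inner ℝ (G x) (V x)) + (∫ x, u x ^ 3 * (u x * v x)) -
      (∫ x, u x ^ 3 * (v x * ‖x‖⁻¹)) = 0 := by
  obtain ⟨S, hS⟩ := HZ.sob
  obtain ⟨ψ, h1, h2, h3⟩ := hv.ex
  have hd : ∀ n, HZ Ω (fun x => ψ n x - v x) (fun x => gradient (ψ n) x - V x) :=
    fun n => (h1 n).hz.sub hv
  have t1 := tend_inner h.mG (fun n => (h1 n).memLpG 2) hv.mG h3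
  have t2 : Tendsto (fun n => ∫ x, u x ^ 3 * (u x * ψ n x)) atTop
      (𝓝 (∫ x, u x ^ 3 * (u x * v x))) := by
    refine tend_mul h.cube (fun n => h.mul2 (h1 n).hz) (h.mul2 hv) ?_
    have b : ∀ n, eLpNorm (fun x => u x * ψ n x - u x * v x) 2 volume ≤
        eLpNorm u 3 volume * (S * eLpNorm (fun x => gradient (ψ n) x - V x) 2 volume) := by
      intro n
      have e : (fun x => u x * ψ n x - u x * v x) = u • fun x => ψ n x - v x := by
        funext x
        simp only [Pi.smul_apply', smul_eq_mul]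
        ring
      rw [e]
      refine (eLpNorm_smul_le_mul_eLpNorm (p := 3) (q := 6) (r := 2) (hd n).mu.1 h.mu.1).trans ?_
      gcongr
      exact hS Ω _ _ (hd n)
    have t := ENNReal.Tendsto.const_mul (ENNReal.Tendsto.const_mul h3 (a := (S : ℝ≥0∞))
      (Or.inr (by simp))) (a := eLpNorm u 3 volume) (Or.inr h.three.2.ne)
    rw [mul_zero, mul_zero] at t
    exact tendsto_of_tendsto_of_tendsto_of_le_of_le tendsto_const_nhds t (fun _ => zero_le) b
  have t3 : Tendsto (fun n => ∫ x, u x ^ 3 * (ψ n x * ‖x‖⁻¹)) atTop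
      (𝓝 (∫ x, u x ^ 3 * (v x * ‖x‖⁻¹))) := by
    refine tend_mul h.cube (fun n => (h1 n).hz.hd) hv.hd ?_
    have b : ∀ n, eLpNorm (fun x => ψ n x * ‖x‖⁻¹ - v x * ‖x‖⁻¹) 2 volume ≤
        2 * eLpNorm (fun x => gradient (ψ n) x - V x) 2 volume := by
      intro n
      have := (hd n).hardy
      simpa only [sub_mul] using this
    have t := ENNReal.Tendsto.const_mul h3 (a := (2 : ℝ≥0∞)) (Or.inr (by simp))
    rw [mul_zero] at t
    exact tendsto_of_tendsto_of_tendsto_of_le_of_le tendsto_const_nhds t (fun _ => zero_le) b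
  have t4 := (t1.add t2).sub t3
  refine tendsto_nhds_unique t4 (tendsto_const_nhds.congr fun n => ?_)
  have i1 := integrable_inner' h.mG ((h1 n).memLpG 2)
  have i2 : Integrable (fun x => u x ^ 3 * (u x * ψ n x)) volume :=
    h.cube.integrable_mul (h.mul2 (h1 n).hz)
  have i3 : Integrable (fun x => u x ^ 3 * (ψ n x * ‖x‖⁻¹)) volume :=
    h.cube.integrable_mul (h1 n).hz.hd
  have i12 : Integrable (fun x => inner ℝ (G x) (gradient (ψ n) x) +
      u x ^ 3 * (u x * ψ n x)) volume := i1.add i2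
  have e2 := integral_sub i12 i3
  rw [integral_add i1 i2] at e2
  rw [← e2, ← hw (ψ n) (h1 n)]
  apply integral_congr_ae
  refine Eventually.of_forall fun x => ?_
  simp only
  ring

end Pool.Agent.V11210.HS
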