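import Mathlib
import Pool.Agent.V11210.HS.Weak

/-!
# Nonexistence in domains that are star-shaped with respect to the origin
-/

set_option autoImplicit false

open MeasureTheory Filter Topology Set
open scoped ENNReal NNReal

namespace Pool.Agent.V11210.HS

theorem pair_le {f g : E → ℝ} (hf : MemLp f 2 volume) (hg : MemLp g 2 volume) :
    ∫ x, f x * g x ≤ (eLpNorm f 2 volume).toReal * (eLpNorm g 2 volume).toReal := by
  have h1 : inner ℝ (hf.toLp f) (hg.toLp g) = ∫ x, f x * g x := by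
    rw [L2.inner_def]
    apply integral_congr_ae
    filter_upwards [hf.coeFn_toLp, hg.coeFn_toLp] with x hx hx'
    rw [hx, hx']
    simp [mul_comm]
  rw [← h1]
  refine (real_inner_le_norm _ _).trans (le_of_eq ?_)
  rw [Lp.norm_toLp, Lp.norm_toLp]

theorem norm_mul_le {f w : E → ℝ} (hf : MemLp f 3 volume) (hw : MemLp w 6 volume) :
    (eLpNorm (fun x => f x * w x) 2 volume).toReal ≤
      (eLpNorm f 3 volume).toReal * (eLpNorm w 6 volume).toReal := by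
  have h1 : eLpNorm (f • w) 2 volume ≤ eLpNorm f 3 volume * eLpNorm w 6 volume :=
    eLpNorm_smul_le_mul_eLpNorm (p := 3) (q := 6) (r := 2) hw.1 hf.1
  have e : (fun x => f x * w x) = f • w := by
    funext x
    simp only [Pi.smul_apply', smul_eq_mul]
  rw [e, ← ENNReal.toReal_mul]
  exact ENNReal.toReal_mono (ENNReal.mul_ne_top hf.2.ne hw.2.ne) h1

theorem sq_norm_int {F : Type} [NormedAddCommGroup F] {f : E → F} (hf : MemLp f 2 volume) :
    ∫ x, ‖f x‖ ^ 2 = (eLpNorm f 2 volume).toReal ^ 2 := by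
  rw [eLpNorm_two hf, ENNReal.toReal_ofReal (Real.sqrt_nonneg _),
    Real.sq_sqrt (integral_nonneg fun x => sq_nonneg _)]

/-- the part of `u ^ 2` above `m / |x|` -/
noncomputable def Fm (u : E → ℝ) (m : ℝ) (x : E) : ℝ := max (u x ^ 2 - m * ‖x‖⁻¹) 0

theorem Fm_nonneg (u : E → ℝ) (m : ℝ) (x : E) : 0 ≤ Fm u m x := le_max_right _ _

theorem Fm_le (u : E → ℝ) {m : ℝ} (hm : 0 ≤ m) (x : E) : Fm u m x ≤ u x ^ 2 := by
  unfold Fm
  apply max_le _ (sq_nonneg _)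
  have : 0 ≤ m * ‖x‖⁻¹ := by positivity
  linarith

theorem le_Fm (u : E → ℝ) (m : ℝ) (x : E) : u x ^ 2 ≤ m * ‖x‖⁻¹ + Fm u m x := by
  unfold Fm
  have := le_max_left (u x ^ 2 - m * ‖x‖⁻¹) 0
  linarith

theorem Fm_meas {u : E → ℝ} (hu : AEStronglyMeasurable u volume) (m : ℝ) :
    AEStronglyMeasurable (Fm u m) volume := by
  have h1 : AEStronglyMeasurable (fun x : E => m * ‖x‖⁻¹) volume :=
    (measurable_norm.inv.const_mul m).aestronglyMeasurable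
  exact ((hu.pow 2).sub h1).sup aestronglyMeasurable_const

theorem Fm_memLp {Ω : Set E} {u : E → ℝ} {G : E → E} (h : HZ Ω u G) {m : ℝ} (hm : 0 ≤ m) :
    MemLp (Fm u m) 3 volume := by
  refine h.sq3.mono (Fm_meas h.mu.1 m) (Eventually.of_forall fun x => ?_)
  rw [Real.norm_eq_abs, Real.norm_eq_abs, abs_of_nonneg (Fm_nonneg u m x),
    abs_of_nonneg (sq_nonneg _)]
  exact Fm_le u hm x

theorem Fm_small {Ω : Set E} {u : E → ℝ} {G : E → E} (h : HZ Ω u G) {ε : ℝ} (hε : 0 < ε) :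
    ∃ n : ℕ, (eLpNorm (Fm u n) 3 volume).toReal ≤ ε := by
  have hint : Integrable (fun x => (u x ^ 2) ^ 3) volume := by
    have h1 := (integrable_norm_rpow_iff h.sq3.1 (by norm_num : (3:ℝ≥0∞) ≠ 0)
      (by norm_num : (3:ℝ≥0∞) ≠ ⊤)).2 h.sq3
    refine h1.congr (Eventually.of_forall fun x => ?_)
    simp only [ENNReal.toReal_ofNat]
    rw [show (3:ℝ) = ((3:ℕ):ℝ) by norm_num, Real.rpow_natCast, Real.norm_eq_abs,
      abs_of_nonneg (sq_nonneg _)]
  have h2 : Tendsto (fun n : ℕ => ∫ x, Fm u n x ^ 3) atTop (𝓝 (∫ _ : E, (0:ℝ))) := by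
    refine tendsto_integral_of_dominated_convergence (fun x => (u x ^ 2) ^ 3)
      (fun n => (Fm_meas h.mu.1 n).pow 3) hint
      (fun n => Eventually.of_forall fun x => ?_) ?_
    · rw [Real.norm_eq_abs, abs_of_nonneg (pow_nonneg (Fm_nonneg u n x) 3)]
      exact pow_le_pow_left₀ (Fm_nonneg u n x) (Fm_le u (Nat.cast_nonneg n) x) 3
    · have h0 : ∀ᵐ x : E, x ≠ 0 := by
        rw [ae_iff]
        simp
      filter_upwards [h0] with x hx
      have hx' : 0 < ‖x‖⁻¹ := by positivity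
      refine tendsto_const_nhds.congr' ?_
      have h3 : Tendsto (fun n : ℕ => (n : ℝ) * ‖x‖⁻¹) atTop atTop :=
        tendsto_natCast_atTop_atTop.atTop_mul_const hx'
      filter_upwards [h3.eventually_ge_atTop (u x ^ 2)] with n hn
      unfold Fm
      rw [max_eq_right (by linarith)]
      simp
  rw [integral_zero] at h2
  have h4 : ∀ n : ℕ, (eLpNorm (Fm u n) 3 volume).toReal = (∫ x, Fm u n x ^ 3) ^ (3:ℝ)⁻¹ := by
    intro n
    rw [(Fm_memLp h (Nat.cast_nonneg n)).eLpNorm_eq_integral_rpow_norm (by norm_num)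
      (by norm_num)]
    simp only [ENNReal.toReal_ofNat]
    rw [ENNReal.toReal_ofReal (Real.rpow_nonneg (integral_nonneg fun x => by positivity) _)]
    congr 1
    apply integral_congr_ae
    refine Eventually.of_forall fun x => ?_
    simp only
    rw [show (3:ℝ) = ((3:ℕ):ℝ) by norm_num, Real.rpow_natCast, Real.norm_eq_abs,
      abs_of_nonneg (Fm_nonneg u n x)]
  have h5 : Tendsto (fun n : ℕ => (∫ x, Fm u n x ^ 3) ^ (3:ℝ)⁻¹) atTop (𝓝 0) := by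
    have h6 := h2.rpow_const (p := (3:ℝ)⁻¹) (Or.inr (by norm_num))
    rwa [Real.zero_rpow (by norm_num)] at h6
  obtain ⟨n, hn⟩ := (h5.eventually_le_const hε).exists
  exact ⟨n, by rw [h4 n]; exact hn⟩

theorem Fm_dil (u : E → ℝ) (m : ℝ) {τ : ℝ} (hτ : 0 < τ) (x : E) :
    Fm (fun x => τ⁻¹ * u ((τ ^ 2)⁻¹ • x)) m x = (τ ^ 2)⁻¹ * Fm u m ((τ ^ 2)⁻¹ • x) := by
  unfold Fm
  have h1 : ‖(τ ^ 2)⁻¹ • x‖⁻¹ = τ ^ 2 * ‖x‖⁻¹ := by
    rw [norm_smul, Real.norm_eq_abs, abs_of_pos (by positivity : (0:ℝ) < (τ ^ 2)⁻¹), mul_inv,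
      inv_inv]
  rw [h1, mul_max_of_nonneg _ _ (by positivity : (0:ℝ) ≤ (τ ^ 2)⁻¹), mul_zero]
  congr 1
  field_simp

theorem Fm_dil_norm (u : E → ℝ) (m : ℝ) {τ : ℝ} (hτ : 0 < τ) :
    eLpNorm (Fm (fun x => τ⁻¹ * u ((τ ^ 2)⁻¹ • x)) m) 3 volume =
      eLpNorm (Fm u m) 3 volume := by
  have hr : (τ ^ 2)⁻¹ ≠ 0 := by positivity
  have e : Fm (fun x => τ⁻¹ * u ((τ ^ 2)⁻¹ • x)) m =
      (τ ^ 2)⁻¹ • fun x => Fm u m ((τ ^ 2)⁻¹ • x) := by
    funext x
    rw [Fm_dil u m hτ x]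
    rfl
  rw [e, eLpNorm_const_smul, eLpNorm_dil (Fm u m) hr (by norm_num), ← mul_assoc]
  have h1 : ‖(τ ^ 2)⁻¹‖ₑ * ENNReal.ofReal |(((τ ^ 2)⁻¹) ^ 3)⁻¹| ^ (1 / (3:ℝ≥0∞)).toReal = 1 := by
    rw [Real.enorm_eq_ofReal (by positivity), ENNReal.ofReal_rpow_of_nonneg (abs_nonneg _)
      (by positivity), ← ENNReal.ofReal_mul (by positivity)]
    refine Eq.trans ?_ ENNReal.ofReal_one
    congr 1
    have h2 : |(((τ ^ 2)⁻¹) ^ 3)⁻¹| = (τ ^ 2) ^ (3:ℝ) := by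
      rw [abs_of_pos (by positivity), show (3:ℝ) = ((3:ℕ):ℝ) by norm_num, Real.rpow_natCast]
      field_simp
    rw [h2]
    have h3 : (1 / (3:ℝ≥0∞)).toReal = (3:ℝ)⁻¹ := by simp
    rw [h3, ← Real.rpow_mul (by positivity)]
    norm_num
    field_simp
  rw [h1, one_mul]

theorem qmp {r : ℝ} (hr : r ≠ 0) :
    Measure.QuasiMeasurePreserving (fun x : E => r • x) volume volume :=
  ⟨measurable_const_smul r, by rw [map_dil hr]; exact Measure.smul_absolutelyContinuous⟩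

set_option maxHeartbeats 4000000 in
/-- the key inequality -/
theorem key {Ω : Set E} {u : E → ℝ} {G : E → E} (h : HZ Ω u G)
    (hw : ∀ ψ, Tst Ω ψ → ∫ x, (inner ℝ (G x) (gradient ψ x) + u x ^ 4 * ψ x
      - u x ^ 3 * ψ x / ‖x‖) = 0) (hpos : ∀ᵐ x : E, 0 ≤ u x) {S : ℝ≥0}
    (hS : ∀ (Ω : Set E) (u : E → ℝ) (G : E → E), HZ Ω u G →
      eLpNorm u 6 volume ≤ S * eLpNorm G 2 volume)
    {τ : ℝ} (hτ : 1 / 2 ≤ τ) (hτ1 : τ < 1) (hΩ : ∀ x ∈ Ω, (τ ^ 2) • x ∈ Ω) {m : ℝ} (hm : 0 ≤ m)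
    (hδ : 3 * S * (eLpNorm (Fm u m) 3 volume).toReal ≤ 1 / 2) :
    ∫ x, u x ^ 3 * (u x * u x) ≤ 480 * m * (1 - τ) * ∫ x, ‖G x‖ ^ 2 := by
  have hτ0 : 0 < τ := by linarith
  have hr : (τ ^ 2)⁻¹ ≠ 0 := by positivity
  obtain ⟨v, hv⟩ : ∃ v : E → ℝ, v = fun x => τ⁻¹ * u ((τ ^ 2)⁻¹ • x) := ⟨_, rfl⟩
  obtain ⟨V, hV⟩ : ∃ V : E → E, V = fun x => (τ ^ 3)⁻¹ • G ((τ ^ 2)⁻¹ • x) := ⟨_, rfl⟩
  have hz : HZ Ω v V := by rw [hv, hV]; exact h.dil hτ0 hΩ
  obtain ⟨w, hwd⟩ : ∃ w : E → ℝ, w = fun x => v x - u x := ⟨_, rfl⟩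
  obtain ⟨W, hWd⟩ : ∃ W : E → E, W = fun x => V x - G x := ⟨_, rfl⟩
  have hzw : HZ Ω w W := by rw [hwd, hWd]; exact hz.sub h
  have hvpos : ∀ᵐ x : E, 0 ≤ v x := by
    have h1 := (qmp hr).ae hpos
    filter_upwards [h1] with x hx
    rw [hv]
    have : 0 ≤ τ⁻¹ := by positivity
    exact mul_nonneg this hx
  -- the weak equation
  have E1 := weak_ext h hw h
  have E2 := weak_ext h hw hz
  set A := ∫ x, ‖G x‖ ^ 2 with hA
  set C := ∫ x, u x ^ 3 * (u x * u x) with hC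
  set B := ∫ x, u x ^ 3 * (u x * ‖x‖⁻¹) with hB
  set P := ∫ x, inner ℝ (G x) (V x) with hP
  set Q := ∫ x, u x ^ 3 * (u x * v x) with hQ
  set R := ∫ x, u x ^ 3 * (v x * ‖x‖⁻¹) with hR
  have e1 : ∫ x, inner ℝ (G x) (G x) = A := by
    rw [hA]
    apply integral_congr_ae
    exact Eventually.of_forall fun x => real_inner_self_eq_norm_sq _
  rw [e1] at E1
  -- scaling
  have hnorm : ∀ x : E, ‖(τ ^ 2)⁻¹ • x‖⁻¹ = τ ^ 2 * ‖x‖⁻¹ := by
    intro x
    rw [norm_smul, Real.norm_eq_abs, abs_of_pos (by positivity : (0:ℝ) < (τ ^ 2)⁻¹), mul_inv,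
      inv_inv]
  have s1 : ∫ x, ‖V x‖ ^ 2 = A := by
    have e : (fun x => ‖V x‖ ^ 2) = fun x => (τ ^ 6)⁻¹ * ‖G ((τ ^ 2)⁻¹ • x)‖ ^ 2 := by
      funext x
      rw [hV]
      simp only
      rw [norm_smul, Real.norm_eq_abs, abs_of_pos (by positivity : (0:ℝ) < (τ ^ 3)⁻¹), mul_pow]
      congr 1
      rw [← inv_pow, ← inv_pow, ← pow_mul]
    rw [e, integral_const_mul, integral_dil (fun x => ‖G x‖ ^ 2) hτ0, ← hA, ← mul_assoc,
      inv_mul_cancel₀ (by positivity), one_mul]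
  have s2 : ∫ x, v x ^ 3 * (v x * v x) = τ * C := by
    have e : (fun x => v x ^ 3 * (v x * v x)) = fun x => (τ ^ 5)⁻¹ *
        (u ((τ ^ 2)⁻¹ • x) ^ 3 * (u ((τ ^ 2)⁻¹ • x) * u ((τ ^ 2)⁻¹ • x))) := by
      funext x
      rw [hv]
      simp only
      field_simp
    rw [e, integral_const_mul, integral_dil (fun x => u x ^ 3 * (u x * u x)) hτ0, ← hC]
    field_simp
  have s3 : ∫ x, v x ^ 3 * (v x * ‖x‖⁻¹) = B := by
    have e : (fun x => v x ^ 3 * (v x * ‖x‖⁻¹)) = fun x => (τ ^ 6)⁻¹ *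
        (u ((τ ^ 2)⁻¹ • x) ^ 3 * (u ((τ ^ 2)⁻¹ • x) * ‖(τ ^ 2)⁻¹ • x‖⁻¹)) := by
      funext x
      rw [hnorm x, hv]
      simp only
      field_simp
    rw [e, integral_const_mul, integral_dil (fun x => u x ^ 3 * (u x * ‖x‖⁻¹)) hτ0, ← hB,
      ← mul_assoc, inv_mul_cancel₀ (by positivity), one_mul]
  -- energy of the difference
  set a := (eLpNorm W 2 volume).toReal with ha
  have s4 : a ^ 2 = 2 * A - 2 * P := by
    rw [ha, ← sq_norm_int hzw.mG]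
    have e : (fun x => ‖W x‖ ^ 2) = fun x => ‖V x‖ ^ 2 - 2 * inner ℝ (G x) (V x) + ‖G x‖ ^ 2 := by
      funext x
      rw [hWd]
      simp only
      rw [norm_sub_sq_real, real_inner_comm]
    have i1 : Integrable (fun x => ‖V x‖ ^ 2) volume := hz.mG.integrable_norm_pow (by norm_num)
    have i2 : Integrable (fun x => ‖G x‖ ^ 2) volume := h.mG.integrable_norm_pow (by norm_num)
    have i3 : Integrable (fun x => 2 * inner ℝ (G x) (V x)) volume :=
      (integrable_inner' h.mG hz.mG).const_mul 2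
    have i13 : Integrable (fun x => ‖V x‖ ^ 2 - 2 * inner ℝ (G x) (V x)) volume := i1.sub i3
    rw [e, integral_add i13 i2, integral_sub i1 i3, integral_const_mul, s1, ← hA, ← hP]
    ring
  -- Young
  have iC : Integrable (fun x => u x ^ 3 * (u x * u x)) volume := h.cube.integrable_mul (h.mul2 h)
  have iQ : Integrable (fun x => u x ^ 3 * (u x * v x)) volume := h.cube.integrable_mul (h.mul2 hz)
  have iC' : Integrable (fun x => v x ^ 3 * (v x * v x)) volume :=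
    hz.cube.integrable_mul (hz.mul2 hz)
  have s5 : 5 * Q ≤ (4 + τ) * C := by
    have h1 : ∫ x, 5 * (u x ^ 3 * (u x * v x)) ≤
        ∫ x, (4 * (u x ^ 3 * (u x * u x)) + v x ^ 3 * (v x * v x)) := by
      refine integral_mono_ae (iQ.const_mul 5) ((iC.const_mul 4).add iC') ?_
      filter_upwards [hpos, hvpos] with x hx hx'
      have : 0 ≤ (u x - v x) ^ 2 * (4 * u x ^ 3 + 3 * u x ^ 2 * v x + 2 * u x * v x ^ 2 +
          v x ^ 3) := by positivity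
      nlinarith [this]
    rw [integral_const_mul, integral_add (iC.const_mul 4) iC', integral_const_mul, s2, ← hQ,
      ← hC] at h1
    linarith
  -- the quadratic part
  have iB : Integrable (fun x => u x ^ 3 * (u x * ‖x‖⁻¹)) volume := h.cube.integrable_mul h.hd
  have iR : Integrable (fun x => u x ^ 3 * (v x * ‖x‖⁻¹)) volume := h.cube.integrable_mul hz.hd
  have iB' : Integrable (fun x => v x ^ 3 * (v x * ‖x‖⁻¹)) volume := hz.cube.integrable_mul hz.hd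
  have iJ : Integrable (fun x => 3 * (u x ^ 3 * (u x * ‖x‖⁻¹)) - 4 * (u x ^ 3 * (v x * ‖x‖⁻¹)) +
      v x ^ 3 * (v x * ‖x‖⁻¹)) volume := ((iB.const_mul 3).sub (iR.const_mul 4)).add iB'
  have s6 : ∫ x, (3 * (u x ^ 3 * (u x * ‖x‖⁻¹)) - 4 * (u x ^ 3 * (v x * ‖x‖⁻¹)) +
      v x ^ 3 * (v x * ‖x‖⁻¹)) = 4 * (B - R) := by
    have i34 : Integrable (fun x => 3 * (u x ^ 3 * (u x * ‖x‖⁻¹)) -
        4 * (u x ^ 3 * (v x * ‖x‖⁻¹))) volume := (iB.const_mul 3).sub (iR.const_mul 4)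
    rw [integral_add i34 iB', integral_sub (iB.const_mul 3) (iR.const_mul 4), integral_const_mul, integral_const_mul, s3,
      ← hB, ← hR]
    ring
  -- the truncated parts
  set δ := (eLpNorm (Fm u m) 3 volume).toReal with hδd
  have mF : MemLp (Fm u m) 3 volume := Fm_memLp h hm
  have mF' : MemLp (Fm v m) 3 volume := Fm_memLp hz hm
  have nF' : (eLpNorm (Fm v m) 3 volume).toReal = δ := by rw [hv, Fm_dil_norm u m hτ0]
  have mwF : MemLp (fun x => Fm u m x * w x) 2 volume := hzw.six.mul' mF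
  have mwF' : MemLp (fun x => Fm v m x * w x) 2 volume := hzw.six.mul' mF'
  have a0 : 0 ≤ a := ENNReal.toReal_nonneg
  have δ0 : 0 ≤ δ := ENNReal.toReal_nonneg
  have b6 : (eLpNorm w 6 volume).toReal ≤ S * a := by
    have := ENNReal.toReal_mono (ENNReal.mul_ne_top (by simp) hzw.mG.2.ne) (hS Ω w W hzw)
    rwa [ENNReal.toReal_mul, ENNReal.coe_toReal] at this
  have b2 : (eLpNorm (fun x => w x * ‖x‖⁻¹) 2 volume).toReal ≤ 2 * a := by
    have := ENNReal.toReal_mono (ENNReal.mul_ne_top (by simp) hzw.mG.2.ne) hzw.hardy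
    rwa [ENNReal.toReal_mul, ENNReal.toReal_ofNat] at this
  have bF : ∀ f : E → ℝ, MemLp f 3 volume → (eLpNorm f 3 volume).toReal = δ →
      (eLpNorm (fun x => f x * w x) 2 volume).toReal ≤ δ * (S * a) := by
    intro f hf hfδ
    have h2 := norm_mul_le hf hzw.six
    rw [hfδ] at h2
    exact h2.trans (mul_le_mul_of_nonneg_left b6 δ0)
  have k1 : ∫ x, (w x * ‖x‖⁻¹) * (w x * ‖x‖⁻¹) ≤ 64 * (1 - τ) ^ 2 * A := by
    have h1 := pair_le hzw.hd hzw.hd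
    have h2 : (eLpNorm (fun x => w x * ‖x‖⁻¹) 2 volume).toReal ≤
        8 * (1 - τ) * (eLpNorm G 2 volume).toReal := by
      have h3 := h.diff hτ hτ1
      have h4 := ENNReal.toReal_mono (ENNReal.mul_ne_top ENNReal.ofReal_ne_top h.mG.2.ne) h3
      rw [ENNReal.toReal_mul, ENNReal.toReal_ofReal (by linarith)] at h4
      rw [hwd, hv]
      exact h4
    have h5 : A = (eLpNorm G 2 volume).toReal ^ 2 := sq_norm_int h.mG
    have h6 : 0 ≤ (eLpNorm (fun x => w x * ‖x‖⁻¹) 2 volume).toReal := ENNReal.toReal_nonneg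
    calc _ ≤ _ := h1
      _ ≤ (8 * (1 - τ) * (eLpNorm G 2 volume).toReal) *
          (8 * (1 - τ) * (eLpNorm G 2 volume).toReal) := mul_le_mul h2 h2 h6 (h6.trans h2)
      _ = _ := by rw [h5]; ring
  have k2 : ∀ f : E → ℝ, MemLp f 3 volume → (eLpNorm f 3 volume).toReal = δ →
      ∫ x, (w x * ‖x‖⁻¹) * (f x * w x) ≤ 2 * S * δ * a ^ 2 := by
    intro f hf hfδ
    have mf : MemLp (fun x => f x * w x) 2 volume := hzw.six.mul' hf
    refine (pair_le hzw.hd mf).trans ?_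
    calc _ ≤ (2 * a) * (δ * (S * a)) :=
          mul_le_mul b2 (bF f hf hfδ) ENNReal.toReal_nonneg (by positivity)
      _ = _ := by ring
  have i1 : Integrable (fun x => (w x * ‖x‖⁻¹) * (w x * ‖x‖⁻¹)) volume :=
    hzw.hd.integrable_mul hzw.hd
  have i2 : Integrable (fun x => (w x * ‖x‖⁻¹) * (Fm u m x * w x)) volume :=
    hzw.hd.integrable_mul mwF
  have i3 : Integrable (fun x => (w x * ‖x‖⁻¹) * (Fm v m x * w x)) volume :=
    hzw.hd.integrable_mul mwF'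
  have s7 : 4 * (B - R) ≤ 6 * m * (∫ x, (w x * ‖x‖⁻¹) * (w x * ‖x‖⁻¹)) +
      4 * (∫ x, (w x * ‖x‖⁻¹) * (Fm u m x * w x)) +
      2 * ∫ x, (w x * ‖x‖⁻¹) * (Fm v m x * w x) := by
    rw [← s6, ← integral_const_mul, ← integral_const_mul, ← integral_const_mul,
      ← integral_add (i1.const_mul _) (i2.const_mul _)]
    have i12 : Integrable (fun x => 6 * m * ((w x * ‖x‖⁻¹) * (w x * ‖x‖⁻¹)) +
        4 * ((w x * ‖x‖⁻¹) * (Fm u m x * w x))) volume := (i1.const_mul _).add (i2.const_mul _)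
    rw [← integral_add i12 (i3.const_mul _)]
    refine integral_mono iJ (i12.add (i3.const_mul _)) fun x => ?_
    have hx : 0 ≤ ‖x‖⁻¹ := by positivity
    have hu' := le_Fm u m x
    have hv' := le_Fm v m x
    have hww : w x = v x - u x := by rw [hwd]
    have p1 : 0 ≤ w x ^ 2 * ‖x‖⁻¹ := by positivity
    have p2 : 3 * u x ^ 2 + 2 * (u x * v x) + v x ^ 2 ≤ 4 * u x ^ 2 + 2 * v x ^ 2 := by
      nlinarith [sq_nonneg (u x - v x)]
    have p3 : 4 * u x ^ 2 + 2 * v x ^ 2 ≤ 6 * (m * ‖x‖⁻¹) + 4 * Fm u m x + 2 * Fm v m x := by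
      linarith
    have p4 := mul_le_mul_of_nonneg_left (p2.trans p3) p1
    show 3 * (u x ^ 3 * (u x * ‖x‖⁻¹)) - 4 * (u x ^ 3 * (v x * ‖x‖⁻¹)) +
      v x ^ 3 * (v x * ‖x‖⁻¹) ≤ 6 * m * ((w x * ‖x‖⁻¹) * (w x * ‖x‖⁻¹)) +
        4 * ((w x * ‖x‖⁻¹) * (Fm u m x * w x)) + 2 * ((w x * ‖x‖⁻¹) * (Fm v m x * w x))
    calc _ = w x ^ 2 * ‖x‖⁻¹ * (3 * u x ^ 2 + 2 * (u x * v x) + v x ^ 2) := by rw [hww]; ring
      _ ≤ _ := p4
      _ = _ := by ring
  have k3 := k2 _ mF rfl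
  have k4 := k2 _ mF' nF'
  have hA0 : 0 ≤ A := integral_nonneg fun x => sq_nonneg _
  have k5 : 6 * m * (∫ x, (w x * ‖x‖⁻¹) * (w x * ‖x‖⁻¹)) ≤ 6 * m * (64 * (1 - τ) ^ 2 * A) :=
    mul_le_mul_of_nonneg_left k1 (by positivity)
  have k6 : 3 * (S:ℝ) * δ * a ^ 2 ≤ 1 / 2 * a ^ 2 :=
    mul_le_mul_of_nonneg_right hδ (sq_nonneg _)
  have fin : (1 - τ) * C ≤ (1 - τ) * (480 * m * (1 - τ) * A) := by
    nlinarith
  exact le_of_mul_le_mul_left fin (by linarith)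

/-- there are no positive solutions -/
theorem no_solution {Ω : Set E} (hΩo : IsOpen Ω) (hΩn : Ω.Nonempty)
    (hΩ : ∀ τ : ℝ, 0 < τ → τ < 1 → ∀ x ∈ Ω, (τ ^ 2) • x ∈ Ω) {u : E → ℝ} {G : E → E}
    (h : HZ Ω u G) (hw : ∀ ψ, Tst Ω ψ → ∫ x, (inner ℝ (G x) (gradient ψ x) + u x ^ 4 * ψ x
      - u x ^ 3 * ψ x / ‖x‖) = 0) (hpos : ∀ᵐ x : E, x ∈ Ω → 0 < u x) : False := by
  obtain ⟨S, hS⟩ := HZ.sob
  have hout : ∀ᵐ x : E, x ∉ Ω → u x = 0 := by
    have hmm : AEStronglyMeasurable (fun x => u x * Ωᶜ.indicator (fun _ => (1:ℝ)) x) volume :=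
      h.mu.1.mul (measurable_const.indicator hΩo.measurableSet.compl).aestronglyMeasurable
    have h1 : eLpNorm (fun x => u x * Ωᶜ.indicator (fun _ => (1:ℝ)) x) 2 volume ≤
        0 * eLpNorm G 2 volume := h.bound (Ωᶜ.indicator fun _ => (1:ℝ)) (measurable_const.indicator
      hΩo.measurableSet.compl) 2 0 (by simp) (fun φ hφ => by
        have e : (fun x => φ x * Ωᶜ.indicator (fun _ => (1:ℝ)) x) = 0 := by
          funext x
          by_cases hx : x ∈ Ω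
          · simp [hx]
          · have : φ x = 0 := by
              by_contra hne
              exact hx (hφ.2.2 (subset_tsupport _ hne))
            simp [this]
        rw [e]; simp)
    rw [zero_mul, nonpos_iff_eq_zero, eLpNorm_eq_zero_iff hmm (by norm_num)] at h1
    filter_upwards [h1] with x hx hxΩ
    simpa [hxΩ] using hx
  have hnn : ∀ᵐ x : E, 0 ≤ u x := by
    filter_upwards [hout, hpos] with x h1 h2
    by_cases hx : x ∈ Ω
    · exact (h2 hx).le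
    · rw [h1 hx]
  obtain ⟨n, hn⟩ := Fm_small h (ε := 1 / (6 * (S + 1))) (by positivity)
  have hδ : 3 * (S:ℝ) * (eLpNorm (Fm u n) 3 volume).toReal ≤ 1 / 2 := by
    have hS0 : (0:ℝ) ≤ S := S.2
    calc 3 * (S:ℝ) * (eLpNorm (Fm u n) 3 volume).toReal ≤ 3 * S * (1 / (6 * (S + 1))) :=
          mul_le_mul_of_nonneg_left hn (by positivity)
      _ ≤ 1 / 2 := by
          rw [mul_one_div, div_le_iff₀ (by positivity)]
          linarith
  set A := ∫ x, ‖G x‖ ^ 2 with hA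
  have hlim : Tendsto (fun τ : ℝ => 480 * (n:ℝ) * (1 - τ) * A) (𝓝[<] 1) (𝓝 0) := by
    have h1 : Tendsto (fun τ : ℝ => 480 * (n:ℝ) * (1 - τ) * A) (𝓝 1)
        (𝓝 (480 * (n:ℝ) * (1 - 1) * A)) := by
      apply Continuous.tendsto
      fun_prop
    rw [sub_self, mul_zero, zero_mul] at h1
    exact h1.mono_left nhdsWithin_le_nhds
  have hC : ∫ x, u x ^ 3 * (u x * u x) ≤ 0 := by
    refine ge_of_tendsto hlim ?_
    have h1 : Ioo (1/2 : ℝ) 1 ∈ 𝓝[<] (1:ℝ) := Ioo_mem_nhdsLT (by norm_num)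
    filter_upwards [h1] with τ hτ
    exact key h hw hnn hS hτ.1.le hτ.2 (hΩ τ (by linarith [hτ.1]) hτ.2) (Nat.cast_nonneg n) hδ
  have iC : Integrable (fun x => u x ^ 3 * (u x * u x)) volume := h.cube.integrable_mul (h.mul2 h)
  have hge : 0 ≤ᵐ[volume] fun x => u x ^ 3 * (u x * u x) := by
    filter_upwards [hnn] with x hx
    have : 0 ≤ u x := hx
    simp only [Pi.zero_apply]
    positivity
  have hC0 : ∫ x, u x ^ 3 * (u x * u x) = 0 := le_antisymm hC (integral_nonneg_of_ae hge)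
  rw [integral_eq_zero_iff_of_nonneg_ae hge iC] at hC0
  have hcon : ∀ᵐ x : E, x ∉ Ω := by
    filter_upwards [hC0, hpos] with x h1 h2 h3
    have h4 := h2 h3
    have : 0 < u x ^ 3 * (u x * u x) := by positivity
    simp only [Pi.zero_apply] at h1
    linarith
  have h5 : (volume : Measure E) Ω = 0 := by
    rw [ae_iff] at hcon
    simpa using hcon
  exact (hΩo.measure_pos volume hΩn).ne' h5

end Pool.Agent.V11210.HS
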